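import Pool.Agent.D0H17.SH.Defs

set_option autoImplicit false

namespace Pool.Agent.D0H30.SH

open Finset Pool.Agent.D0H17.GE Pool.Agent.D0H17.SH

/-- shift of the scales -/
lemma sn_shift {Λ K : ℝ} {n j T : ℕ} {p : ℕ → ℝ} (h : SN Λ K n j (T + 1) p) :
    SN Λ K n j T (fun i => p (i + 1)) where
  big i hi := h.big (i + 1) (by omega)
  top i hi := h.top (i + 1) (by omega)
  step i hi := h.step (i + 1) (by omega)
  gap i hi := h.gap (i + 1) (by omega)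

/-- mean value estimate -/
lemma pow_sub_le (m : ℕ) {x y : ℝ} (hy : 0 ≤ y) (hyx : y ≤ x) :
    x ^ (m + 1) - y ^ (m + 1) ≤ ((m : ℝ) + 1) * x ^ m * (x - y) := by
  have hx : 0 ≤ x := hy.trans hyx
  induction m with
  | zero => simp
  | succ m ih =>
    have h1 : x ^ (m + 1 + 1) - y ^ (m + 1 + 1) =
        x * (x ^ (m + 1) - y ^ (m + 1)) + (x - y) * y ^ (m + 1) := by ring
    have h2 := mul_le_mul_of_nonneg_left ih hx
    have h3 : (x - y) * y ^ (m + 1) ≤ (x - y) * x ^ (m + 1) :=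
      mul_le_mul_of_nonneg_left (pow_le_pow_left₀ hy hyx _) (by linarith)
    rw [h1]
    push_cast
    calc x * (x ^ (m + 1) - y ^ (m + 1)) + (x - y) * y ^ (m + 1)
        ≤ x * (((m : ℝ) + 1) * x ^ m * (x - y)) + (x - y) * x ^ (m + 1) := add_le_add h2 h3
      _ = ((m : ℝ) + 1 + 1) * x ^ (m + 1) * (x - y) := by ring

lemma floor_step {n : ℕ} {y P θ Q : ℝ} (hP : 0 ≤ P) (hθ : 0 ≤ θ) (hθ1 : θ ≤ 1)
    (hy : (P + 2) ^ (n + 2) ≤ y) (hQ : 0 ≤ Q) (hyQ : y ≤ Q ^ (n + 2)) :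
    ∃ m : ℕ, P ≤ (m : ℝ) ∧ (m : ℝ) ≤ Q ∧ 0 ≤ y - ((m : ℝ) + θ) ^ (n + 2) ∧
      y - ((m : ℝ) + θ) ^ (n + 2) ≤ ((n : ℝ) + 2) * Q ^ (n + 1) := by
  have hy0 : 0 ≤ y := (pow_nonneg (by linarith) _).trans hy
  obtain ⟨x, hx⟩ : ∃ x, x = y ^ (((n + 2 : ℕ) : ℝ)⁻¹) := ⟨_, rfl⟩
  have hx0 : 0 ≤ x := by rw [hx]; positivity
  have hxc : x ^ (n + 2) = y := by
    rw [hx]
    exact Real.rpow_inv_natCast_pow hy0 (by omega)
  have h1 : P + 2 ≤ x := by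
    by_contra hlt
    push Not at hlt
    have := pow_lt_pow_left₀ hlt hx0 (show n + 2 ≠ 0 by omega)
    rw [hxc] at this
    linarith
  have h1' : x ≤ Q := by
    by_contra hlt
    push Not at hlt
    have := pow_lt_pow_left₀ hlt hQ (show n + 2 ≠ 0 by omega)
    rw [hxc] at this
    linarith
  have h2 : (⌊x - θ⌋₊ : ℝ) ≤ x - θ := Nat.floor_le (by linarith)
  have h3 : x - θ < (⌊x - θ⌋₊ : ℝ) + 1 := Nat.lt_floor_add_one _
  have h4 : (0 : ℝ) ≤ (⌊x - θ⌋₊ : ℝ) := Nat.cast_nonneg _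
  refine ⟨⌊x - θ⌋₊, by linarith, by linarith, ?_, ?_⟩
  · rw [← hxc]
    have := pow_le_pow_left₀ (show 0 ≤ (⌊x - θ⌋₊ : ℝ) + θ by linarith)
      (show (⌊x - θ⌋₊ : ℝ) + θ ≤ x by linarith) (n + 2)
    linarith
  · rw [← hxc]
    have h5 := pow_sub_le (n + 1) (x := x) (show 0 ≤ (⌊x - θ⌋₊ : ℝ) + θ by linarith) (by linarith)
    refine h5.trans ?_
    have h6 : x ^ (n + 1) ≤ Q ^ (n + 1) := pow_le_pow_left₀ hx0 h1' _
    have h7 : 0 ≤ ((n : ℝ) + 2) * x ^ (n + 1) := by positivity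
    push_cast
    calc ((n : ℝ) + 1 + 1) * x ^ (n + 1) * (x - ((⌊x - θ⌋₊ : ℝ) + θ))
        = ((n : ℝ) + 2) * x ^ (n + 1) * (x - ((⌊x - θ⌋₊ : ℝ) + θ)) := by ring
      _ ≤ ((n : ℝ) + 2) * x ^ (n + 1) * 1 := mul_le_mul_of_nonneg_left (by linarith) h7
      _ = ((n : ℝ) + 2) * x ^ (n + 1) := mul_one _
      _ ≤ ((n : ℝ) + 2) * Q ^ (n + 1) := mul_le_mul_of_nonneg_left h6 (by positivity)

/-- N1: the wide sums cover -/
theorem cover (n R t j : ℕ) (K Λ : ℝ) (p : ℕ → ℝ) (hR : 4 ≤ R) (hK : ((n : ℝ) + 3) * (R + 1) ≤ K)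
    (hΛ : 2 * (2 * K) ^ (n + 3) ≤ Λ) (h : SN Λ K n j t p) (θ w : ℝ) (hθ : 0 ≤ θ) (hθ1 : θ ≤ 1)
    (hw1 : (2 * p 0) ^ (n + 2) ≤ w) (hw2 : w ≤ (R * p 0) ^ (n + 2)) :
    ∃ u ∈ XS R (t + 1) p, |w - TT (n + 2) θ u| ≤ ((n : ℝ) + 2) * (((R : ℝ) + 1) * p t) ^ (n + 1) := by
  have hR' : (4 : ℝ) ≤ R := by exact_mod_cast hR
  have hn : (0 : ℝ) ≤ n := Nat.cast_nonneg n
  have hKR : (R : ℝ) + 1 ≤ K := by nlinarith
  have hKn : (n : ℝ) + 2 ≤ K := by nlinarith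
  have hK1 : 5 ≤ K := by linarith
  have h2K : (1 : ℝ) ≤ 2 * K := by linarith
  have hKb : 2 * K ≤ (2 * K) ^ (n + 2) := le_self_pow₀ h2K (by omega)
  have hKc : (2 * K) ^ (n + 2) ≤ Λ / 2 := by
    have : (2 * K) ^ (n + 2) ≤ (2 * K) ^ (n + 3) := pow_le_pow_right₀ h2K (by omega)
    linarith
  have hΛ4 : 4 ≤ Λ := by linarith
  induction t generalizing p w with
  | zero =>
    have hp := h.big 0 le_rfl
    have hp0 : 0 < p 0 := by linarith
    obtain ⟨m, f1, f2, f3, f4⟩ := floor_step (n := n) (y := w) (P := p 0) (Q := R * p 0) hp0.le hθ hθ1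
      ((pow_le_pow_left₀ (by linarith) (by linarith) _).trans hw1) (by positivity) hw2
    refine ⟨fun _ => m, ?_, ?_⟩
    · unfold XS
      rw [Fintype.mem_piFinset]
      intro i
      have hi : (i : ℕ) = 0 := by omega
      rw [hi, mem_Icc]
      exact ⟨Nat.ceil_le.2 f1, Nat.le_floor f2⟩
    · have hS : TT (n + 2) θ (fun _ : Fin (0 + 1) => m) = ((m : ℝ) + θ) ^ (n + 2) := by
        unfold TT
        simp
      rw [hS, abs_of_nonneg f3]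
      refine f4.trans (mul_le_mul_of_nonneg_left ?_ (by positivity))
      refine pow_le_pow_left₀ (by positivity) ?_ _
      exact mul_le_mul_of_nonneg_right (by linarith) hp0.le
  | succ t ih =>
    have hp := h.big 0 (by omega)
    have hp0 : 0 < p 0 := by linarith
    have hq := h.big 1 (by omega)
    have hq0 : 0 < p 1 := by linarith
    have hst := h.step 0 (by omega)
    rw [zero_add] at hst
    obtain ⟨A, hA⟩ : ∃ A, A = p 0 ^ (n + 1) := ⟨_, rfl⟩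
    have hA0 : 0 < A := by rw [hA]; positivity
    have hAp : p 0 ^ (n + 2) = A * p 0 := by
      rw [hA]; ring
    rw [← hA] at hst
    have h2p1 : (2 * p 1) ^ (n + 2) = (2 * K) ^ (n + 2) * A := by
      rw [mul_pow, hst, mul_pow]; ring
    have h2c : (2 : ℝ) ≤ 2 ^ (n + 2) := le_self_pow₀ (by norm_num) (by omega)
    have hKc0 : 0 < K ^ (n + 2) := by positivity
    -- `(2 p₁) ^ k ≤ p₀ ^ k / 2`
    have e1 : (2 * p 1) ^ (n + 2) ≤ p 0 ^ (n + 2) / 2 := by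
      rw [h2p1, hAp]
      calc (2 * K) ^ (n + 2) * A ≤ (p 0 / 2) * A := mul_le_mul_of_nonneg_right (by linarith) hA0.le
        _ = A * p 0 / 2 := by ring
    have e2 : ((3 : ℝ) / 2) ^ (n + 2) ≤ 2 ^ (n + 2) - 1 / 2 := by
      have g1 : (2 : ℝ) ^ (n + 2) = (3 / 2 : ℝ) ^ (n + 2) * (4 / 3 : ℝ) ^ (n + 2) := by
        rw [← mul_pow]
        norm_num
      have g2 : (4 / 3 : ℝ) ≤ (4 / 3 : ℝ) ^ (n + 2) := le_self_pow₀ (by norm_num) (by omega)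
      have g3 : (3 / 2 : ℝ) ≤ (3 / 2 : ℝ) ^ (n + 2) := le_self_pow₀ (by norm_num) (by omega)
      rw [g1]
      nlinarith
    have hpc : 0 < p 0 ^ (n + 2) := by positivity
    have e3 : (p 0 + 2) ^ (n + 2) ≤ w - (2 * p 1) ^ (n + 2) := by
      have g1 : (p 0 + 2) ^ (n + 2) ≤ (3 / 2 * p 0) ^ (n + 2) :=
        pow_le_pow_left₀ (by linarith) (by linarith) _
      rw [mul_pow] at g1
      rw [mul_pow] at hw1
      nlinarith
    obtain ⟨y, hy⟩ : ∃ y, y = w - (2 * p 1) ^ (n + 2) := ⟨_, rfl⟩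
    rw [← hy] at e3
    have hyw : y ≤ w := by
      rw [hy]
      have : 0 ≤ (2 * p 1) ^ (n + 2) := by positivity
      linarith
    obtain ⟨m, f1, f2, f3, f4⟩ := floor_step (n := n) (y := y) (P := p 0) (Q := R * p 0) hp0.le hθ hθ1
      e3 (by positivity) (hyw.trans hw2)
    have e5 : ((n : ℝ) + 2) * R ^ (n + 1) ≤ K ^ (n + 2) := by
      have g2 : (R : ℝ) ^ (n + 1) ≤ K ^ (n + 1) := pow_le_pow_left₀ (by linarith) (by linarith) _
      calc ((n : ℝ) + 2) * R ^ (n + 1) ≤ K * K ^ (n + 1) :=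
            mul_le_mul hKn g2 (by positivity) (by linarith)
        _ = K ^ (n + 2) := by ring
    have e4 : ((n : ℝ) + 2) * (R * p 0) ^ (n + 1) ≤ p 1 ^ (n + 2) := by
      rw [hst, mul_pow, ← hA, ← mul_assoc]
      exact mul_le_mul_of_nonneg_right e5 hA0.le
    obtain ⟨B, hB⟩ : ∃ B, B = p 1 ^ (n + 2) := ⟨_, rfl⟩
    have hB0 : 0 < B := by rw [hB]; positivity
    rw [← hB] at e4
    have h2B : (2 * p 1) ^ (n + 2) = 2 ^ (n + 2) * B := by rw [hB, mul_pow]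
    have e6 : (1 : ℝ) ≤ (R : ℝ) ^ (n + 2) - 2 ^ (n + 2) := by
      have g1 : (4 : ℝ) ^ (n + 2) ≤ (R : ℝ) ^ (n + 2) := pow_le_pow_left₀ (by norm_num) hR' _
      have g2 : (4 : ℝ) ^ (n + 2) = 2 ^ (n + 2) * 2 ^ (n + 2) := by
        rw [← mul_pow]
        norm_num
      have g3 : (2 : ℝ) * 2 ^ (n + 2) ≤ 2 ^ (n + 2) * 2 ^ (n + 2) :=
        mul_le_mul_of_nonneg_right h2c (by positivity)
      linarith
    have e7 : w - ((m : ℝ) + θ) ^ (n + 2) ≤ (R * p 1) ^ (n + 2) := by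
      rw [mul_pow, ← hB]
      have g1 : w - ((m : ℝ) + θ) ^ (n + 2) = 2 ^ (n + 2) * B + (y - ((m : ℝ) + θ) ^ (n + 2)) := by
        rw [hy, h2B]; ring
      rw [g1]
      have g3 : 1 * B ≤ ((R : ℝ) ^ (n + 2) - 2 ^ (n + 2)) * B := mul_le_mul_of_nonneg_right e6 hB0.le
      have g4 : y - ((m : ℝ) + θ) ^ (n + 2) ≤ B := f4.trans e4
      linarith
    have e8 : (2 * p 1) ^ (n + 2) ≤ w - ((m : ℝ) + θ) ^ (n + 2) := by
      have g1 : w - ((m : ℝ) + θ) ^ (n + 2) =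
          (2 * p 1) ^ (n + 2) + (y - ((m : ℝ) + θ) ^ (n + 2)) := by rw [hy]; ring
      rw [g1]
      linarith
    obtain ⟨u, hu, hu'⟩ := ih (fun i => p (i + 1)) (sn_shift h) (w - ((m : ℝ) + θ) ^ (n + 2)) e8 e7
    refine ⟨Fin.cons m u, ?_, ?_⟩
    · unfold XS at hu ⊢
      rw [Fintype.mem_piFinset] at hu ⊢
      intro i
      refine Fin.cases ?_ (fun i => ?_) i
      · rw [Fin.cons_zero, mem_Icc]
        exact ⟨Nat.ceil_le.2 f1, Nat.le_floor f2⟩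
      · rw [Fin.cons_succ]
        exact hu i
    · have hS : TT (n + 2) θ (Fin.cons m u : Fin (t + 1 + 1) → ℕ) =
          ((m : ℝ) + θ) ^ (n + 2) + TT (n + 2) θ u := by
        unfold TT
        rw [Fin.sum_univ_succ, Fin.cons_zero]
        simp only [Fin.cons_succ]
      rw [hS, ← sub_sub]
      exact hu'

end Pool.Agent.D0H30.SH
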